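import Pool.Agent.Helper33.IR.Goals

/-!
# Project IR, packet ABS: the abstract irrationality theorem
-/

set_option autoImplicit false

namespace Pool.Agent.Helper79.IR

open Pool.Agent.Helper33.IR Finset

/-- exponents of `2` -/
def X (K : ℕ) (p : ℕ → ℕ) (e' : ℕ → Fin (K + 1) → ℕ) : Bool × Bool × Fin (K + 1) → ℕ → ℤ
  | (true, true, _), n => 2 * (p n : ℤ)
  | (true, false, _), _ => 0
  | (false, _, i), n => -(2 * (e' n i : ℤ))

/-- exponents of `3` -/
def Y (K : ℕ) (q : ℕ → ℕ) (e : ℕ → Fin (K + 1) → ℕ) : Bool × Bool × Fin (K + 1) → ℕ → ℤ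
  | (true, _, i), n => -(e n i : ℤ)
  | (false, true, _), n => (q n : ℤ)
  | (false, false, _), _ => 0

/-- coefficients -/
def co (K : ℕ) (al al' : Fin (K + 1) → ℤ) : Bool × Bool × Fin (K + 1) → ℚ
  | (true, true, i) => (al i : ℚ)
  | (true, false, i) => -(al i : ℚ)
  | (false, true, i) => (al' i : ℚ)
  | (false, false, i) => -(al' i : ℚ)

theorem sum_co (K : ℕ) (p q : ℕ → ℕ) (e e' : ℕ → Fin (K + 1) → ℕ) (al al' : Fin (K + 1) → ℤ)
    (n : ℕ) :
    ∑ k, (co K al al' k : ℝ) * (2 : ℝ) ^ (X K p e' k n) * (3 : ℝ) ^ (Y K q e k n) =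
      ∑ i, (al i : ℝ) * (4 ^ (p n) - 1) / 3 ^ (e n i) +
        ∑ i, (al' i : ℝ) * (3 ^ (q n) - 1) / 4 ^ (e' n i) := by
  rw [Fintype.sum_prod_type, Fintype.sum_bool, Fintype.sum_prod_type, Fintype.sum_bool,
    Fintype.sum_prod_type, Fintype.sum_bool, ← Finset.sum_add_distrib, ← Finset.sum_add_distrib]
  have h2 : ∀ m : ℕ, (2 : ℝ) ^ (2 * (m : ℤ)) = 4 ^ m := by
    intro m
    rw [zpow_mul, zpow_natCast]
    norm_num
  congr 1
  · apply Finset.sum_congr rfl
    intro i _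
    simp only [co, X, Y]
    rw [h2, zpow_neg, zpow_natCast]
    push_cast
    rw [zpow_zero]
    field_simp
    ring
  · apply Finset.sum_congr rfl
    intro i _
    simp only [co, X, Y]
    rw [zpow_neg, h2, zpow_natCast]
    push_cast
    rw [zpow_zero]
    field_simp
    ring

/-- the sum over an interval as sum over the list of the changed digits -/
theorem sum_list (K : ℕ) (W : ℕ → ℚ) (q T : ℕ) (e : Fin (K + 1) → ℕ) (act : Fin (K + 1) → Bool)
    (c D : ℝ) (r g : ℝ)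
    (h : ∀ f : ℕ → ℝ, ∑ b ∈ (Icc 1 T).filter (fun b => W (b + q) ≠ W b), f b =
      ∑ i, if act i = true then f (e i) else 0)
    (al : Fin (K + 1) → ℤ)
    (hal : ∀ i, (al i : ℝ) = if act i = true then c * D * ((W (e i + q) : ℝ) - W (e i)) else 0) :
    ∑ b ∈ Icc 1 T, c * D * ((W (b + q) : ℝ) - W b) * r / g ^ b =
      ∑ i, (al i : ℝ) * r / g ^ (e i) := by
  have h1 : ∑ b ∈ Icc 1 T, c * D * ((W (b + q) : ℝ) - W b) * r / g ^ b =
      ∑ b ∈ (Icc 1 T).filter (fun b => W (b + q) ≠ W b),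
        c * D * ((W (b + q) : ℝ) - W b) * r / g ^ b := by
    rw [Finset.sum_filter_of_ne]
    intro b _ hb hW
    apply hb
    rw [hW]
    ring
  rw [h1, h]
  apply Finset.sum_congr rfl
  intro i _
  rw [hal]
  split_ifs
  · rfl
  · ring

theorem abs' (hCZ : G_CZ) (hINT : G_INT) (hENUM : G_ENUM) (hENUM0 : G_ENUM0)
    (W Z : ℕ → ℚ) (D : ℕ) (C : ℝ) (K : ℕ) (q p B : ℕ → ℕ) (hD : 0 < D)
    (hWi : ∀ b, ∃ z : ℤ, (D : ℚ) * W b = z) (hZi : ∀ j, ∃ z : ℤ, (D : ℚ) * Z j = z)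
    (hWC : ∀ b, |(W b : ℝ)| ≤ C) (hZC : ∀ j, |(Z j : ℝ)| ≤ C)
    (hB : ∀ n, n ≤ B n) (hB1 : ∀ n, 1 ≤ B n) (hq : ∀ n, q n ≤ B n)
    (hpq : ∀ n, (4 : ℝ) ^ (p n) ≤ 2 * 3 ^ (q n)) (hp : ∀ n, n ≤ p n)
    (hS : ∀ (n : ℕ) (S : Finset ℕ), (∀ b ∈ S, 1 ≤ b ∧ b ≤ 6 * B n ∧ W (b + q n) ≠ W b) →
      S.card ≤ K)
    (hS' : ∀ (n : ℕ) (S : Finset ℕ), (∀ j ∈ S, 1 ≤ j ∧ j ≤ 6 * B n ∧ Z (j + p n) ≠ Z j) →
      S.card ≤ K)
    (hdist : ∀ n, W (B n + q n) ≠ W (B n))
    (hfin : ∀ c : ℤ, c ≠ 0 → ∃ n0 : ℕ, ∀ n ≥ n0, ∀ b : ℕ, 1 ≤ b → (b : ℤ) = B n + c →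
      W (b + q n) = W b) :
    Irrational ((∑' b : ℕ, (W b : ℝ) / 3 ^ b) + ∑' j : ℕ, (Z j : ℝ) / 4 ^ j) := by
  classical
  by_contra hirr
  obtain ⟨c, hc, hI⟩ := hINT W Z D C hD hWi hZi hWC hZC hirr
  have hC0 : 0 ≤ C := (abs_nonneg _).trans (hWC 0)
  -- the lists
  have hE : ∀ n, ∃ (e : Fin (K + 1) → ℕ) (act : Fin (K + 1) → Bool),
      e 0 = B n ∧ act 0 = true ∧
      (∀ i, act i = true → e i ∈ (Icc 1 (6 * B n)).filter (fun b => W (b + q n) ≠ W b)) ∧
      (∀ i, act i = false → e i = 0) ∧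
      (∀ i, i ≠ 0 → act i = true → e i ≠ B n) ∧
      ∀ f : ℕ → ℝ, ∑ b ∈ (Icc 1 (6 * B n)).filter (fun b => W (b + q n) ≠ W b), f b =
        ∑ i, if act i = true then f (e i) else 0 := by
    intro n
    apply hENUM
    · rw [Finset.mem_filter, Finset.mem_Icc]
      exact ⟨⟨hB1 n, by omega⟩, hdist n⟩
    · apply hS n
      intro b hb
      rw [Finset.mem_filter, Finset.mem_Icc] at hb
      exact ⟨hb.1.1, hb.1.2, hb.2⟩
  choose e act he0 hact0 heS he00 hne hesum using hE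
  have hE' : ∀ n, ∃ (e : Fin (K + 1) → ℕ) (act : Fin (K + 1) → Bool),
      (∀ i, act i = true → e i ∈ (Icc 1 (6 * B n)).filter (fun b => Z (b + p n) ≠ Z b)) ∧
      (∀ i, act i = false → e i = 0) ∧
      ∀ f : ℕ → ℝ, ∑ b ∈ (Icc 1 (6 * B n)).filter (fun b => Z (b + p n) ≠ Z b), f b =
        ∑ i, if act i = true then f (e i) else 0 := by
    intro n
    apply hENUM0
    apply hS' n
    intro b hb
    rw [Finset.mem_filter, Finset.mem_Icc] at hb
    exact ⟨hb.1.1, hb.1.2, hb.2⟩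
  choose e' act' heS' he00' hesum' using hE'
  -- sizes
  have heB : ∀ n i, e n i ≤ 6 * B n := by
    intro n i
    cases h : act n i with
    | true =>
      have := heS n i h
      rw [Finset.mem_filter, Finset.mem_Icc] at this
      exact this.1.2
    | false => rw [he00 n i h]; omega
  have heB' : ∀ n i, e' n i ≤ 6 * B n := by
    intro n i
    cases h : act' n i with
    | true =>
      have := heS' n i h
      rw [Finset.mem_filter, Finset.mem_Icc] at this
      exact this.1.2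
    | false => rw [he00' n i h]; omega
  have hpB : ∀ n, p n ≤ B n := by
    intro n
    refine le_trans ?_ (hq n)
    by_contra hlt
    push Not at hlt
    have h1 : (4 : ℝ) ^ (q n + 1) ≤ 4 ^ (p n) := pow_le_pow_right₀ (by norm_num) hlt
    have h2 : (3 : ℝ) ^ (q n) ≤ 4 ^ (q n) := pow_le_pow_left₀ (by norm_num) (by norm_num) _
    have h3 : (0 : ℝ) < 4 ^ (q n) := by positivity
    have h4 := hpq n
    rw [pow_succ] at h1
    linarith
  -- integrality of the coefficients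
  have hint : ∀ (U : ℕ → ℚ), (∀ b, ∃ z : ℤ, (D : ℚ) * U b = z) → ∀ a b : ℕ,
      ∃ z : ℤ, (z : ℝ) = c * D * ((U a : ℝ) - U b) := by
    intro U hU a b
    obtain ⟨z1, h1⟩ := hU a
    obtain ⟨z2, h2⟩ := hU b
    refine ⟨c * (z1 - z2), ?_⟩
    have h1' : (D : ℝ) * (U a : ℝ) = z1 := by exact_mod_cast h1
    have h2' : (D : ℝ) * (U b : ℝ) = z2 := by exact_mod_cast h2
    push_cast
    rw [← h1', ← h2']
    ring
  have hcoef : ∀ n i, ∃ z : ℤ, (z : ℝ) =
      if act n i = true then (c : ℝ) * D * ((W (e n i + q n) : ℝ) - W (e n i)) else 0 := by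
    intro n i
    split_ifs
    · exact hint W hWi _ _
    · exact ⟨0, by simp⟩
  choose al hal using hcoef
  have hcoef' : ∀ n i, ∃ z : ℤ, (z : ℝ) =
      if act' n i = true then (c : ℝ) * D * ((Z (e' n i + p n) : ℝ) - Z (e' n i)) else 0 := by
    intro n i
    split_ifs
    · exact hint Z hZi _ _
    · exact ⟨0, by simp⟩
  choose al' hal' using hcoef'
  -- bounds of the coefficients
  have hcD : (0 : ℝ) ≤ (c : ℝ) * D := by positivity
  obtain ⟨N, hN⟩ : ∃ N : ℕ, 2 * (c : ℝ) * D * C ≤ N := exists_nat_ge _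
  have hbd : ∀ (U : ℕ → ℚ), (∀ b, |(U b : ℝ)| ≤ C) → ∀ a b : ℕ,
      |(c : ℝ) * D * ((U a : ℝ) - U b)| ≤ N := by
    intro U hU a b
    rw [abs_mul, abs_of_nonneg hcD]
    have h1 : |(U a : ℝ) - U b| ≤ 2 * C := by
      have := abs_sub (U a : ℝ) (U b : ℝ)
      have h2 := hU a
      have h3 := hU b
      linarith
    calc (c : ℝ) * D * |(U a : ℝ) - U b| ≤ (c : ℝ) * D * (2 * C) :=
          mul_le_mul_of_nonneg_left h1 hcD
      _ = 2 * (c : ℝ) * D * C := by ring
      _ ≤ N := hN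
  have halN : ∀ n i, al n i ∈ Finset.Icc (-(N : ℤ)) N := by
    intro n i
    have h1 : |(al n i : ℝ)| ≤ N := by
      rw [hal]
      split_ifs
      · exact hbd W hWC _ _
      · simp
    rw [Finset.mem_Icc, ← abs_le]
    exact_mod_cast h1
  have halN' : ∀ n i, al' n i ∈ Finset.Icc (-(N : ℤ)) N := by
    intro n i
    have h1 : |(al' n i : ℝ)| ≤ N := by
      rw [hal']
      split_ifs
      · exact hbd Z hZC _ _
      · simp
    rw [Finset.mem_Icc, ← abs_le]
    exact_mod_cast h1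
  -- pigeonhole
  obtain ⟨⟨v, v'⟩, hv⟩ := Finite.exists_infinite_fiber
    (fun n : ℕ => ((fun i => ⟨al n i, halN n i⟩, fun i => ⟨al' n i, halN' n i⟩) :
      (Fin (K + 1) → ↥(Finset.Icc (-(N : ℤ)) N)) × (Fin (K + 1) → ↥(Finset.Icc (-(N : ℤ)) N))))
  set a0 : Fin (K + 1) → ℤ := fun i => (v i : ℤ) with ha0
  set a0' : Fin (K + 1) → ℤ := fun i => (v' i : ℤ) with ha0'
  set I0 : Set ℕ := {n | al n = a0 ∧ al' n = a0'} with hI0
  have hI0inf : I0.Infinite := by
    have h1 : ((fun n : ℕ => ((fun i => ⟨al n i, halN n i⟩, fun i => ⟨al' n i, halN' n i⟩) :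
      (Fin (K + 1) → ↥(Finset.Icc (-(N : ℤ)) N)) ×
        (Fin (K + 1) → ↥(Finset.Icc (-(N : ℤ)) N)))) ⁻¹' {(v, v')}).Infinite :=
      Set.infinite_coe_iff.1 hv
    refine h1.mono ?_
    intro n hn
    rw [Set.mem_preimage, Set.mem_singleton_iff, Prod.mk.injEq] at hn
    constructor
    · funext i
      rw [ha0]
      show al n i = (v i : ℤ)
      rw [← hn.1]
    · funext i
      rw [ha0']
      show al' n i = (v' i : ℤ)
      rw [← hn.2]
  -- large n
  obtain ⟨N0, hN0⟩ : ∃ N0 : ℕ, 6 * (c : ℝ) * D * C ≤ 3 ^ N0 :=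
    ((tendsto_pow_atTop_atTop_of_one_lt (by norm_num : (1 : ℝ) < 3)).eventually_ge_atTop _).exists
  set I : Set ℕ := {n | n ∈ I0 ∧ N0 ≤ n} with hIdef
  have hIinf : I.Infinite := by
    have h1 : (I0 \ (Finset.range N0 : Set ℕ)).Infinite :=
      hI0inf.sdiff (Finset.finite_toSet _)
    refine h1.mono ?_
    intro n hn
    refine ⟨hn.1, ?_⟩
    have := hn.2
    simp only [Finset.coe_range, Set.mem_Iio, not_lt] at this
    exact this
  choose M hM using fun n => hI (q n) (p n) (6 * B n)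
  have hl3 : 0 < Real.log 3 := Real.log_pos (by norm_num)
  have hexp3 : ∀ m : ℕ, Real.exp (-(Real.log 3) * m) = 1 / 3 ^ m := by
    intro m
    rw [show -(Real.log 3) * (m : ℝ) = -((m : ℝ) * Real.log 3) by ring, Real.exp_neg,
      Real.exp_nat_mul, Real.exp_log (by norm_num), one_div]
  have hexp4 : ∀ m : ℕ, Real.exp (-(4 * Real.log 3) * m) = 1 / 3 ^ (4 * m) := by
    intro m
    rw [← hexp3]
    push_cast
    congr 1
    ring
  -- the main approximation
  have happ : ∀ n ∈ I, |(M n : ℝ) - ∑ k, (co K a0 a0' k : ℝ) * (2 : ℝ) ^ (X K p e' k n) *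
      (3 : ℝ) ^ (Y K q e k n)| ≤ Real.exp (-(4 * Real.log 3) * (B n : ℝ)) := by
    intro n hn
    obtain ⟨⟨hn1, hn2⟩, hn3⟩ := hn
    rw [sum_co, hexp4]
    have h1 := hM n
    rw [sum_list K W (q n) (6 * B n) (e n) (act n) c D (4 ^ (p n) - 1) 3 (hesum n) (al n) (hal n),
      sum_list K Z (p n) (6 * B n) (e' n) (act' n) c D (3 ^ (q n) - 1) 4 (hesum' n) (al' n)
        (hal' n), hn1, hn2] at h1
    rw [← sub_sub]
    refine h1.trans ?_
    have hb3 : (0 : ℝ) < 3 ^ (B n) := by positivity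
    have e1 : (4 : ℝ) ^ (p n) / 3 ^ (6 * B n) ≤ 2 / 3 ^ (5 * B n) := by
      rw [div_le_div_iff₀ (by positivity) (by positivity)]
      have h2 : (3 : ℝ) ^ (q n) ≤ 3 ^ (B n) := pow_le_pow_right₀ (by norm_num) (hq n)
      have h3 : (4 : ℝ) ^ (p n) ≤ 2 * 3 ^ (B n) := (hpq n).trans (by linarith)
      calc (4 : ℝ) ^ (p n) * 3 ^ (5 * B n) ≤ 2 * 3 ^ (B n) * 3 ^ (5 * B n) :=
            mul_le_mul_of_nonneg_right h3 (by positivity)
        _ = 2 * 3 ^ (6 * B n) := by
            rw [mul_assoc, ← pow_add]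
            congr 2
            omega
    have e2 : (3 : ℝ) ^ (q n) / 4 ^ (6 * B n) ≤ 1 / 3 ^ (5 * B n) := by
      rw [div_le_div_iff₀ (by positivity) (by positivity), one_mul]
      calc (3 : ℝ) ^ (q n) * 3 ^ (5 * B n) ≤ 3 ^ (B n) * 3 ^ (5 * B n) :=
            mul_le_mul_of_nonneg_right (pow_le_pow_right₀ (by norm_num) (hq n)) (by positivity)
        _ = 3 ^ (6 * B n) := by
            rw [← pow_add]
            congr 1
            omega
        _ ≤ 4 ^ (6 * B n) := pow_le_pow_left₀ (by norm_num) (by norm_num) _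
    have e3 : (3 : ℝ) ^ N0 ≤ 3 ^ (B n) :=
      pow_le_pow_right₀ (by norm_num) (hn3.trans (hB n))
    have h0 : 0 ≤ 2 * (c : ℝ) * D * C := by positivity
    calc 2 * (c : ℝ) * D * C * (4 ^ (p n) / 3 ^ (6 * B n) + 3 ^ (q n) / 4 ^ (6 * B n)) ≤
          2 * (c : ℝ) * D * C * (2 / 3 ^ (5 * B n) + 1 / 3 ^ (5 * B n)) :=
          mul_le_mul_of_nonneg_left (add_le_add e1 e2) h0
      _ = (6 * (c : ℝ) * D * C) / 3 ^ (5 * B n) := by ring
      _ ≤ 3 ^ (B n) / 3 ^ (5 * B n) :=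
          div_le_div_of_nonneg_right (hN0.trans e3) (by positivity)
      _ = 1 / 3 ^ (4 * B n) := by
          rw [div_eq_div_iff (by positivity) (by positivity), one_mul, ← pow_add]
          congr 1
          omega
  -- the constants
  set s0 : ℝ := ∑ k, |(co K a0 a0' k : ℝ)| with hs0
  have hs00 : 0 ≤ s0 := Finset.sum_nonneg fun _ _ => abs_nonneg _
  have hBpos : ∀ n, (1 : ℝ) ≤ B n := fun n => by exact_mod_cast hB1 n
  have hxB : ∀ k n, |(X K p e' k n : ℝ)| ≤ 12 * B n ∧ |(Y K q e k n : ℝ)| ≤ 12 * B n := by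
    rintro ⟨b1, b2, i⟩ n
    have h1 : (p n : ℝ) ≤ B n := by exact_mod_cast hpB n
    have h2 : (e n i : ℝ) ≤ 6 * B n := by exact_mod_cast heB n i
    have h3 : (e' n i : ℝ) ≤ 6 * B n := by exact_mod_cast heB' n i
    have h4 : (q n : ℝ) ≤ B n := by exact_mod_cast hq n
    have h5 := hBpos n
    have p1 : (0 : ℝ) ≤ p n := Nat.cast_nonneg _
    have p2 : (0 : ℝ) ≤ e n i := Nat.cast_nonneg _
    have p3 : (0 : ℝ) ≤ e' n i := Nat.cast_nonneg _
    have p4 : (0 : ℝ) ≤ q n := Nat.cast_nonneg _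
    cases b1 <;> cases b2 <;> simp only [X, Y] <;> push_cast <;> constructor <;>
      rw [abs_le] <;> constructor <;> linarith
  have hl2 : Real.log 2 ≤ 1 := by
    have := Real.log_two_lt_d9
    linarith
  have hl3' : Real.log 3 ≤ 2 := by
    have h := Real.log_le_sub_one_of_pos (by norm_num : (0 : ℝ) < 3)
    linarith
  have hMb : ∀ n ∈ I, |(M n : ℝ)| ≤ Real.exp ((s0 + 1 + 36) * (B n : ℝ)) := by
    intro n hn
    have h1 := happ n hn
    have h2 : Real.exp (-(4 * Real.log 3) * (B n : ℝ)) ≤ Real.exp (36 * (B n : ℝ)) := by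
      apply Real.exp_le_exp.2
      have := hBpos n
      have h3 : 0 ≤ Real.log 3 * (B n : ℝ) := by positivity
      linarith
    have h3 : ∀ k, |(co K a0 a0' k : ℝ) * (2 : ℝ) ^ (X K p e' k n) * (3 : ℝ) ^ (Y K q e k n)| ≤
        |(co K a0 a0' k : ℝ)| * Real.exp (36 * (B n : ℝ)) := by
      intro k
      rw [mul_assoc, abs_mul]
      apply mul_le_mul_of_nonneg_left _ (abs_nonneg _)
      rw [abs_of_pos (by positivity)]
      have h4 : (2 : ℝ) ^ (X K p e' k n) = Real.exp ((X K p e' k n : ℝ) * Real.log 2) := by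
        rw [← Real.rpow_intCast, Real.rpow_def_of_pos (by norm_num), mul_comm]
      have h5 : (3 : ℝ) ^ (Y K q e k n) = Real.exp ((Y K q e k n : ℝ) * Real.log 3) := by
        rw [← Real.rpow_intCast, Real.rpow_def_of_pos (by norm_num), mul_comm]
      rw [h4, h5, ← Real.exp_add]
      apply Real.exp_le_exp.2
      obtain ⟨h6, h7⟩ := hxB k n
      have hl20 : 0 ≤ Real.log 2 := Real.log_nonneg (by norm_num)
      have h8 : (X K p e' k n : ℝ) * Real.log 2 ≤ 12 * B n * 1 :=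
        mul_le_mul ((le_abs_self _).trans h6) hl2 hl20 (by positivity)
      have h9 : (Y K q e k n : ℝ) * Real.log 3 ≤ 12 * B n * 2 :=
        mul_le_mul ((le_abs_self _).trans h7) hl3' hl3.le (by positivity)
      linarith
    have h4 : |∑ k, (co K a0 a0' k : ℝ) * (2 : ℝ) ^ (X K p e' k n) * (3 : ℝ) ^ (Y K q e k n)| ≤
        s0 * Real.exp (36 * (B n : ℝ)) := by
      refine (Finset.abs_sum_le_sum_abs _ _).trans ?_
      rw [hs0, Finset.sum_mul]
      exact Finset.sum_le_sum fun k _ => h3 k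
    have h5 : |(M n : ℝ)| ≤ (s0 + 1) * Real.exp (36 * (B n : ℝ)) := by
      have h6 := abs_sub_abs_le_abs_sub (M n : ℝ)
        (∑ k, (co K a0 a0' k : ℝ) * (2 : ℝ) ^ (X K p e' k n) * (3 : ℝ) ^ (Y K q e k n))
      rw [add_mul, one_mul]
      linarith
    refine h5.trans ?_
    rw [add_mul (s0 + 1) 36, Real.exp_add]
    apply mul_le_mul_of_nonneg_right _ (Real.exp_pos _).le
    have h6 : s0 + 1 ≤ (s0 + 1) * (B n : ℝ) := le_mul_of_one_le_right (by linarith) (hBpos n)
    have h7 := Real.add_one_le_exp ((s0 + 1) * (B n : ℝ))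
    linarith
  -- apply the Corvaja-Zannier step
  have hco0 : co K a0 a0' (true, true, 0) ≠ 0 := by
    obtain ⟨n, hn⟩ := hIinf.nonempty
    obtain ⟨⟨hn1, -⟩, -⟩ := hn
    show ((a0 0 : ℤ) : ℚ) ≠ 0
    have h1 := hal n 0
    rw [if_pos (hact0 n), he0 n, hn1] at h1
    intro h0
    have h2 : (a0 0 : ℝ) = 0 := by exact_mod_cast h0
    rw [h2] at h1
    have h3 : (c : ℝ) * D ≠ 0 := by positivity
    have h4 : (W (B n + q n) : ℝ) - W (B n) = 0 := by
      rcases mul_eq_zero.1 h1.symm with h | h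
      · exact absurd h h3
      · exact h
    apply hdist n
    have h5 : (W (B n + q n) : ℝ) = W (B n) := by linarith
    exact_mod_cast h5
  obtain ⟨k, hk, s, t, hinf⟩ := hCZ (Bool × Bool × Fin (K + 1)) (true, true, 0) (co K a0 a0')
    (X K p e') (Y K q e) M (fun n => (B n : ℝ)) I (s0 + 1 + 36) (4 * Real.log 3) (Real.log 3) 1
    hIinf (fun n => by exact_mod_cast hB n) hco0 one_pos (by linarith) (by linarith)
    (fun k n => by
      obtain ⟨h1, h2⟩ := hxB k n
      have h3 := hBpos n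
      have h4 : 12 * (B n : ℝ) ≤ (s0 + 1 + 36) * B n :=
        mul_le_mul_of_nonneg_right (by linarith) (by linarith)
      exact ⟨h1.trans h4, h2.trans h4⟩) hMb happ
    (fun n _ => by
      rw [hexp3]
      simp only [X, Y]
      rw [he0 n, zpow_neg, zpow_natCast, one_div]
      have h1 : (1 : ℝ) ≤ (2 : ℝ) ^ (2 * (p n : ℤ)) := by
        apply one_le_zpow₀ (by norm_num)
        positivity
      exact le_mul_of_one_le_left (by positivity) h1)
    (fun n _ => by
      simp only [Y]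
      rw [he0 n]
      push_cast
      linarith)
  -- arbitrarily large n
  have hlarge : ∀ L : ℕ, ∃ n, L ≤ n ∧ X K p e' k n = X K p e' (true, true, 0) n + s ∧
      Y K q e k n = Y K q e (true, true, 0) n + t := by
    intro L
    have h1 := hinf.sdiff (Finset.finite_toSet (Finset.range L))
    obtain ⟨n, hn⟩ := h1.nonempty
    refine ⟨n, ?_, hn.1.2⟩
    have := hn.2
    simp only [Finset.coe_range, Set.mem_Iio, not_lt] at this
    exact this
  obtain ⟨b1, b2, i⟩ := k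
  cases b1 with
  | false =>
    obtain ⟨n, hn1, hn2, -⟩ := hlarge (s.natAbs + 1)
    simp only [X] at hn2
    have h1 := hp n
    have h2 : (0 : ℤ) ≤ e' n i := Int.natCast_nonneg _
    omega
  | true =>
    cases b2 with
    | false =>
      obtain ⟨n, hn1, hn2, -⟩ := hlarge (s.natAbs + 1)
      simp only [X] at hn2
      have h1 := hp n
      omega
    | true =>
      have hi : i ≠ 0 := by
        intro h
        apply hk
        rw [h]
      have hact : ∀ n, t.natAbs + 1 ≤ n → X K p e' (true, true, i) n =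
          X K p e' (true, true, 0) n + s →
          Y K q e (true, true, i) n = Y K q e (true, true, 0) n + t →
          act n i = true ∧ (e n i : ℤ) = B n - t := by
        intro n hn _ hy
        simp only [Y] at hy
        rw [he0 n] at hy
        have hBn := hB n
        cases h : act n i with
        | true => exact ⟨rfl, by linarith⟩
        | false =>
          rw [he00 n i h] at hy
          omega
      have ht : t ≠ 0 := by
        intro ht
        obtain ⟨n, hn1, hn2, hn3⟩ := hlarge (t.natAbs + 1)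
        obtain ⟨h1, h2⟩ := hact n hn1 hn2 hn3
        apply hne n i hi h1
        rw [ht] at h2
        omega
      obtain ⟨n0, hn0⟩ := hfin (-t) (neg_ne_zero.2 ht)
      obtain ⟨n, hn1, hn2, hn3⟩ := hlarge (max n0 (t.natAbs + 1))
      obtain ⟨h1, h2⟩ := hact n (le_of_max_le_right hn1) hn2 hn3
      have h3 := heS n i h1
      rw [Finset.mem_filter, Finset.mem_Icc] at h3
      exact h3.2 (hn0 n (le_of_max_le_left hn1) (e n i) h3.1.1 (by rw [h2]; ring))

theorem gABS (hCZ : G_CZ) (hINT : G_INT) (hENUM : G_ENUM) (hENUM0 : G_ENUM0) : G_ABS := by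
  intro W Z D C K q p B hD hWi hZi hWC hZC hB hq hpq hp hS hS' hdist hfin
  refine abs' hCZ hINT hENUM hENUM0 W Z D C K (fun n => q (n + 1)) (fun n => p (n + 1))
    (fun n => B (n + 1)) hD hWi hZi hWC hZC (fun n => (Nat.le_succ n).trans (hB (n + 1)))
    (fun n => (Nat.succ_le_succ (Nat.zero_le n)).trans (hB (n + 1))) (fun n => hq (n + 1))
    (fun n => hpq (n + 1)) (fun n => (Nat.le_succ n).trans (hp (n + 1)))
    (fun n => hS (n + 1)) (fun n => hS' (n + 1)) (fun n => hdist (n + 1)) ?_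
  intro c hc
  obtain ⟨n0, h⟩ := hfin c hc
  exact ⟨n0, fun n hn => h (n + 1) (by omega)⟩

end Pool.Agent.Helper79.IR
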